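import Pool.Agent.H66.S2.Basic

/-!
# Project T5, module FIN: the main theorem
-/

set_option autoImplicit false
set_option linter.unusedSectionVars false

namespace Pool.H66.S2

open Filter Topology

/-- `F` is the trace of an isobaric representation -/
def FIN_R (A : Aut) (F : A.Pt → ℂ) : Prop :=
  ∃ Q : Multiset A.Cusp, ∀ p, (A.eigs Q p).sum = F p

theorem FIN_mul (hTEN : S_TEN) (A : Aut) (h2 : A.HasSE 2) {F G : A.Pt → ℂ} (hF : FIN_R A F)
    (hG : FIN_R A G) : FIN_R A (fun p => F p * G p) := by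
  obtain ⟨P, hP⟩ := hF
  obtain ⟨Q, hQ⟩ := hG
  obtain ⟨T, hT⟩ := hTEN A h2 P Q
  exact ⟨T, fun p => by rw [hT, hP, hQ]⟩

theorem FIN_one (hBAS : S_BAS) (A : Aut) : FIN_R A (fun _ => 1) := by
  refine ⟨{A.one}, fun p => ?_⟩
  rw [eigs_singleton, (hBAS A).2.2.2.1 p]
  simp

theorem FIN_pow (hBAS : S_BAS) (hTEN : S_TEN) (A : Aut) (h2 : A.HasSE 2) {F : A.Pt → ℂ}
    (hF : FIN_R A F) (n : ℕ) : FIN_R A (fun p => F p ^ n) := by
  induction n with
  | zero => simpa using FIN_one hBAS A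
  | succ n ih =>
    have := FIN_mul hTEN A h2 ih hF
    simpa only [pow_succ] using this

theorem FIN_prod (hBAS : S_BAS) (hTEN : S_TEN) (A : Aut) (h2 : A.HasSE 2) {r : ℕ}
    {F : Fin r → A.Pt → ℂ} (hF : ∀ i, FIN_R A (F i)) : FIN_R A (fun p => ∏ i, F i p) := by
  classical
  have : ∀ s : Finset (Fin r), FIN_R A (fun p => ∏ i ∈ s, F i p) := by
    intro s
    induction s using Finset.induction_on with
    | empty => simpa using FIN_one hBAS A
    | insert i s hi ih =>
      have := FIN_mul hTEN A h2 (hF i) ih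
      simpa only [Finset.prod_insert hi] using this
  exact this Finset.univ

theorem FIN_det (hBAS : S_BAS) (hTEN : S_TEN) (A : Aut) (h2 : A.HasSE 2) (P : Multiset A.Cusp) :
    FIN_R A (fun p => (A.eigs P p).prod) ∧ FIN_R A (fun p => ((A.eigs P p).prod)⁻¹) := by
  induction P using Multiset.induction_on with
  | empty =>
    constructor
    · have := FIN_one hBAS A
      simpa only [eigs_zero, Multiset.prod_zero] using this
    · have := FIN_one hBAS A
      simpa only [eigs_zero, Multiset.prod_zero, inv_one] using this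
  | cons σ P ih =>
    have h1 : FIN_R A (fun p => (A.eig σ p).prod) := by
      refine ⟨{A.det σ}, fun p => ?_⟩
      rw [eigs_singleton, (hBAS A).2.2.2.2.2.2.1 σ p]
      simp
    have h3 : FIN_R A (fun p => ((A.eig σ p).prod)⁻¹) := by
      refine ⟨{A.dual (A.det σ)}, fun p => ?_⟩
      rw [eigs_singleton, (hBAS A).2.2.2.2.1 (A.det σ) p, (hBAS A).2.2.2.2.2.2.1 σ p]
      simp
    constructor
    · have := FIN_mul hTEN A h2 h1 ih.1
      simpa only [eigs_cons, Multiset.prod_add] using this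
    · have := FIN_mul hTEN A h2 h3 ih.2
      simpa only [eigs_cons, Multiset.prod_add, mul_inv] using this

theorem FIN_desc (P : ℕ → Prop) (h : ∀ k, P (k + 1) → P k) (d : ℕ) :
    ∀ k, P (k + d) → P k := by
  induction d with
  | zero => exact fun k hk => hk
  | succ d ih => exact fun k hk => ih k (h _ hk)

theorem FIN_SE (hDNS : S_DNS) (hDNE : S_DNE) (A : Aut)
    (hA : ∀ K : ℕ, ∃ k, K ≤ k ∧ (A.HasSym k ∨ A.HasExt k)) : ∀ k, A.HasSE k := by
  intro k
  by_cases h : ∀ K : ℕ, ∃ k, K ≤ k ∧ A.HasSym k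
  · obtain ⟨k', hk, hk'⟩ := h k
    left
    refine FIN_desc A.HasSym (fun j => hDNS A j) (k' - k) k ?_
    rwa [Nat.add_sub_cancel' hk]
  · push Not at h
    obtain ⟨K, hK⟩ := h
    obtain ⟨k', hk, hk'⟩ := hA (max k K)
    right
    have h1 : A.HasExt k' := hk'.resolve_left (hK k' ((le_max_right _ _).trans hk))
    refine FIN_desc A.HasExt (fun j => hDNE A j) (k' - k) k ?_
    rwa [Nat.add_sub_cancel' ((le_max_left _ _).trans hk)]

theorem FIN_deg (hSTP : S_STP) (A : Aut) (hA : ∀ k, A.HasSE k) : ∀ k, A.HasDeg k := by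
  intro k
  induction k using Nat.strong_induction_on with
  | _ k ih => exact hSTP A k hA ih

/-- Module FIN. -/
theorem s_FIN (hSTP : S_STP) (hDNS : S_DNS) (hDNE : S_DNE) (hTEN : S_TEN) (hBAS : S_BAS) :
    S_FIN := by
  intro A hA r P n lam hlam e
  have hSE := FIN_SE hDNS hDNE A hA
  refine FIN_prod hBAS hTEN A (hSE 2) (fun i => ?_)
  refine FIN_mul hTEN A (hSE 2) ?_ ?_
  · obtain ⟨Q, hQ⟩ := FIN_deg hSTP A hSE (∑ j, lam i j) (n i) (lam i) (hlam i) rfl (P i)
    exact ⟨Q, hQ⟩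
  · obtain ⟨h1, h3⟩ := FIN_det hBAS hTEN A (hSE 2) (P i)
    rcases Int.eq_nat_or_neg (e i) with ⟨k, hk | hk⟩
    · have := FIN_pow hBAS hTEN A (hSE 2) h1 k
      simpa only [hk, zpow_natCast] using this
    · have := FIN_pow hBAS hTEN A (hSE 2) h3 k
      simpa only [hk, zpow_neg, zpow_natCast, inv_pow] using this

end Pool.H66.S2
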