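import Pool.Agent.H66.S2.Basic

/-!
# The last box argument
-/

namespace Pool.H66.S2

open Filter Topology

theorem LBX_schur_zero (hZRO : S_ZRO) (r : ℕ) (X : Multiset ℂ) :
    schur (fun _ : Fin r => 0) X = 1 := by
  induction r with
  | zero => simp [schur, JT]
  | succ r ih =>
    rw [← ih, ← hZRO r (fun _ => 0) X]
    congr 1
    funext j
    refine Fin.lastCases ?_ (fun j => ?_) j
    · simp
    · simp

/-- The last nonempty row. -/
theorem LBX_row {r : ℕ} (nu : Fin (r + 1) → ℕ) (h : ∃ j, nu j ≠ 0) :
    ∃ i, 0 < nu i ∧ ∀ j, i < j → nu j = 0 := by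
  classical
  set s : Finset (Fin (r + 1)) := Finset.univ.filter fun j => nu j ≠ 0 with hs
  have hne : s.Nonempty := by
    obtain ⟨j, hj⟩ := h
    exact ⟨j, Finset.mem_filter.2 ⟨Finset.mem_univ _, hj⟩⟩
  refine ⟨s.max' hne, ?_, ?_⟩
  · exact Nat.pos_of_ne_zero (Finset.mem_filter.1 (s.max'_mem hne)).2
  · intro j hj
    by_contra h0
    exact absurd (s.le_max' j (Finset.mem_filter.2 ⟨Finset.mem_univ _, h0⟩)) (not_le.2 hj)

theorem LBX_count {m : ℕ} {B : Multiset (Fin m → ℤ)} {σ : Equiv.Perm (Fin m)}
    (h : (B.map fun a => a ∘ σ) = B) (b : Fin m → ℤ) : B.count (b ∘ σ) = B.count b := by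
  conv_lhs => rw [← h]
  have hinj : Function.Injective fun a : Fin m → ℤ => a ∘ σ := by
    intro a b hab
    funext j
    have := congrFun hab (σ.symm j)
    simpa using this
  exact Multiset.count_map_eq_count' _ _ hinj b

theorem LBX_card_le {α : Type} (Q : Multiset α) (f : α → ℤ) (h : ∀ z ∈ Q, 1 ≤ f z) :
    (Q.card : ℤ) ≤ (Q.map f).sum := by
  induction Q using Multiset.induction_on with
  | empty => simp
  | cons z Q ih =>
    have h1 := ih fun w hw => h w (Multiset.mem_cons_of_mem hw)
    have h2 := h z (Multiset.mem_cons_self z Q)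
    simp only [Multiset.card_cons, Multiset.map_cons, Multiset.sum_cons]
    push_cast
    linarith

theorem LBX_le_sum {α : Type} (Q : Multiset α) (f : α → ℤ) (h : ∀ z ∈ Q, 0 ≤ f z) (z : α)
    (hz : z ∈ Q) : f z ≤ (Q.map f).sum := by
  obtain ⟨R, rfl⟩ := Multiset.exists_cons_of_mem hz
  have h1 : 0 ≤ (R.map f).sum := by
    refine Multiset.sum_nonneg fun x hx => ?_
    obtain ⟨w, hw, rfl⟩ := Multiset.mem_map.1 hx
    exact h w (Multiset.mem_cons_of_mem hw)
  simp only [Multiset.map_cons, Multiset.sum_cons]
  linarith

theorem s_LBX (hLBA : S_LBA) (hLBB : S_LBB) (hCOL : S_COL) (hKOS : S_KOS)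
    (hZRO : S_ZRO) (hBAS : S_BAS) : S_LBX := by
  intro m' k H hm' hH A τ hsym hsch hgood
  obtain ⟨r, rfl⟩ : ∃ r, m' = r + 1 := ⟨m' - 1, by omega⟩
  obtain ⟨hdeg, htemp, v, t, c, hG⟩ := hgood
  have hm : 2 ≤ r + 1 := by omega
  have hV : ∀ nu : Fin (r + 1) → ℕ, Antitone nu → ∑ j, nu j < k → ∃ Q : Multiset A.Cusp,
      ∀ p, (A.eigs Q p).sum = schur nu (A.eig τ p) := by
    intro nu hnu hk
    obtain ⟨Q, hQ⟩ := hsch _ hk (r + 1) nu hnu rfl {τ}
    refine ⟨Q, fun p => ?_⟩
    rw [hQ p, eigs_singleton]
  obtain ⟨hcard, -, -, hone, -, hmul, hdet, -⟩ := hBAS A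
  have key : ∀ n : ℕ, ∀ nu : Fin (r + 1) → ℕ, Antitone nu → ∑ j, nu j = n → n < k →
      ∃ x, ∀ p, A.tr x p = schur nu (A.eig τ p) := by
    intro n
    induction n using Nat.strong_induction_on with
    | _ n ih =>
    intro nu hnu hsum hnk
    by_cases hz : ∃ j, nu j ≠ 0
    swap
    · -- the empty partition
      push Not at hz
      refine ⟨A.one, fun p => ?_⟩
      have h1 : nu = fun _ => 0 := funext hz
      rw [h1, LBX_schur_zero hZRO]
      unfold AData.tr
      rw [hone]
      simp
    by_cases hl : 1 ≤ nu (Fin.last r)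
    · -- a full column
      have hall : ∀ j, 1 ≤ nu j := fun j => hl.trans (hnu (Fin.le_last j))
      set nu' : Fin (r + 1) → ℕ := fun j => nu j - 1 with hnu'
      have h1 : nu = fun j => nu' j + 1 := by
        funext j
        have := hall j
        simp only [hnu']
        omega
      have h2 : ∑ j, nu j = ∑ j, nu' j + (r + 1) := by
        rw [h1]
        simp [Finset.sum_add_distrib]
      obtain ⟨x', hx'⟩ := ih (∑ j, nu' j) (by omega) nu'
        (fun i j hij => Nat.sub_le_sub_right (hnu hij) 1) rfl (by omega)
      refine ⟨A.mul (A.det τ) x', fun p => ?_⟩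
      obtain ⟨c', hc'⟩ := exists_ord A.toAData ((hcard τ p).trans hdeg)
      have h3 : A.tr (A.mul (A.det τ) x') p = A.tr (A.det τ) p * A.tr x' p := by
        have h4 := hmul (A.det τ) x' p (A.deg_det τ)
        unfold AData.tr at h4 ⊢
        rw [h4, Multiset.sum_map_mul_left, Multiset.map_id']
      have h5 : A.tr (A.det τ) p = ∏ j, c' j := by
        unfold AData.tr
        rw [hdet, Multiset.sum_singleton, hc']
        rfl
      rw [h3, h5, hx', h1, hc', hCOL]
    · -- the last box
      obtain ⟨i, hi, hi'⟩ := LBX_row nu hz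
      have hil : i < Fin.last r := by
        refine lt_of_le_of_ne (Fin.le_last i) ?_
        rintro rfl
        omega
      set mu : Fin (r + 1) → ℕ := fun j => if j = i then nu j - 1 else nu j with hmu
      have h1 : mu + Pi.single i 1 = nu := by
        funext j
        simp only [hmu, Pi.add_apply]
        by_cases hj : j = i
        · subst hj
          simp only [if_true, Pi.single_eq_same]
          omega
        · simp [hj]
      have hmu' : Antitone mu := by
        intro a b hab
        simp only [hmu]
        have h2 := hnu hab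
        by_cases hb : b = i
        · by_cases ha : a = i
          · simp [ha, hb]
          · rw [if_pos hb, if_neg ha]
            omega
        · by_cases ha : a = i
          · have h3 : i < b := lt_of_le_of_ne (ha ▸ hab) (Ne.symm hb)
            rw [if_neg hb, hi' b h3]
            exact Nat.zero_le _
          · rw [if_neg hb, if_neg ha]
            exact h2
      have hsum' : ∑ j, nu j = ∑ j, mu j + 1 := by
        rw [← h1]
        simp [Finset.sum_add_distrib]
      obtain ⟨x, hx⟩ := ih (∑ j, mu j) (by omega) mu hmu' rfl (by omega)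
      obtain ⟨Q, hQ⟩ := hV nu hnu (by omega)
      obtain ⟨K, hK, hKs, -, hK1, -, hKr⟩ := hKOS (r + 1) nu hnu
      obtain ⟨hKlt, hKgt⟩ := hKr i hi hi'
      obtain ⟨B, hB, hBK⟩ := hLBA A τ (r + 1) H v t c hm hdeg hG nu hnu (by omega) K hK hKs
        Q hQ
      have hQ' : ∀ p, (A.eigs Q p).sum = schur (mu + Pi.single i 1) (A.eig τ p) := by
        rw [h1]; exact hQ
      have hcast : ((∑ j, nu j : ℕ) : ℤ) = ((∑ j, mu j : ℕ) : ℤ) + 1 := by
        rw [hsum']
        push_cast
        ring
      -- the two weights
      have hnuE : (fun j => (mu j : ℤ)) + ee i = fun j => (nu j : ℤ) := by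
        funext j
        rw [← h1]
        simp only [Pi.add_apply, ee]
        by_cases hj : j = i
        · subst hj; simp
        · simp [hj]
      have hmuE : ∀ l, (fun j => (mu j : ℤ)) + ee l = (fun j => (nu j : ℤ)) - ee i + ee l := by
        intro l
        rw [← hnuE]
        ring
      obtain ⟨l, hl1⟩ : ∃ l : Fin (r + 1), i < l := ⟨Fin.last r, hil⟩
      have hpos : ∀ z ∈ Q, 1 ≤ (((B z).count ((fun j => (nu j : ℤ)) - ee i + ee l) : ℕ) : ℤ) := by
        intro z hz
        obtain ⟨hpat, hinv, hstr⟩ := hB z hz
        obtain ⟨l', hl'⟩ := hLBB A τ (r + 1) H v t c hm hdeg (hsym 2) htemp hG mu i hmu'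
          (by rw [h1]; exact hnu) (by omega) (fun nu' hnu' hs' => hV nu' hnu' (by omega)) x hx Q
          hQ' z hz (B z) (by rw [hcast] at hpat; exact hpat)
        have hcnt : 1 ≤ (B z).count ((fun j => (mu j : ℤ)) + ee l') :=
          Multiset.one_le_count_iff_mem.2 hl'
        rcases lt_trichotomy l' i with h | h | h
        · -- impossible
          exfalso
          have h3 := hBK ((fun j => (nu j : ℤ)) - ee i + ee l')
          rw [hKlt l' h] at h3
          have h4 := LBX_le_sum Q
            (fun z => ((B z).count ((fun j => (nu j : ℤ)) - ee i + ee l') : ℤ))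
            (fun z _ => by positivity) z hz
          rw [h3] at h4
          rw [hmuE l'] at hcnt
          have h5 : (1 : ℤ) ≤ ((B z).count ((fun j => (nu j : ℤ)) - ee i + ee l') : ℤ) := by
            exact_mod_cast hcnt
          linarith
        · -- the highest weight
          rw [h, hnuE] at hcnt
          have h3 := hstr (fun j => (nu j : ℤ)) i l hl1.ne (by
            rw [hi' l hl1]
            have : (1 : ℤ) ≤ nu i := by exact_mod_cast hi
            simpa using this)
          exact_mod_cast hcnt.trans h3
        · -- a conjugate of the second weight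
          have h3 : (fun j => (mu j : ℤ)) + ee l' =
              ((fun j => (mu j : ℤ)) + ee l) ∘ Equiv.swap l l' := by
            have hml : ∀ j, i < j → mu j = 0 := by
              intro j hj
              simp only [hmu]
              rw [if_neg hj.ne', hi' j hj]
            funext j
            simp only [Pi.add_apply, Function.comp_apply, ee]
            by_cases hj : j = l
            · subst hj
              rw [Equiv.swap_apply_left, hml _ hl1, hml _ h]
              by_cases hll : j = l'
              · subst hll; simp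
              · rw [Pi.single_eq_of_ne hll, Pi.single_eq_of_ne (Ne.symm hll)]
            · by_cases hj' : j = l'
              · subst hj'
                rw [Equiv.swap_apply_right, hml _ hl1, hml _ h]
                simp
              · rw [Equiv.swap_apply_of_ne_of_ne hj hj', Pi.single_eq_of_ne hj',
                  Pi.single_eq_of_ne hj]
          rw [h3, LBX_count (hinv _), hmuE l] at hcnt
          exact_mod_cast hcnt
      have hcardQ : (Q.card : ℤ) ≤ 1 := by
        have h3 := LBX_card_le Q _ hpos
        rwa [hBK, hKgt l hl1] at h3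
      have hQne : Q.card ≠ 0 := by
        intro h0
        rw [Multiset.card_eq_zero] at h0
        have h3 := hBK (fun j => (nu j : ℤ))
        rw [hK1, h0] at h3
        simp at h3
      obtain ⟨y, hy⟩ := Multiset.card_eq_one.1 (show Q.card = 1 by
        have : Q.card ≤ 1 := by exact_mod_cast hcardQ
        omega)
      refine ⟨y, fun p => ?_⟩
      rw [← hQ p, hy, eigs_singleton]
      rfl
  intro nu hnu hnk
  exact key _ nu hnu rfl hnk

end Pool.H66.S2
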