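import Pool.Agent.H66.S2M.Prod

/-!
# The induction on the degree
-/

namespace Pool.H66.S2

/-- The eigenvalues of a tensor product with a cuspidal representation of `GL(m)`. -/
theorem STP_tens (hTEN : S_TEN) (hVAN : S_VAN) (hBAS : S_BAS) (A : Aut) (h2 : A.HasSE 2)
    (m : ℕ) (P : Multiset A.Cusp) (τ : A.Cusp) (hτ : A.deg τ = m) :
    ∃ T : Multiset A.Cusp, ∀ p, ∃ c : Fin m → ℂ, A.eig τ p = Finset.univ.val.map c ∧
      A.eigs T p = (A.eigs P p).bind fun a => Finset.univ.val.map fun j => a * c j := by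
  obtain ⟨T, hT⟩ := hTEN A h2 P {τ}
  have hT' : ∀ p, (A.eigs T p).sum = (A.eigs P p).sum * A.tr τ p := by
    intro p
    rw [hT p, eigs_singleton]
    rfl
  refine ⟨T, fun p => ?_⟩
  obtain ⟨c, hc⟩ := exists_ord A.toAData (((hBAS A).1 τ p).trans hτ)
  exact ⟨c, hc, XTR_prod hVAN hBAS A P T τ hT' p c hc⟩

/-- Symmetric powers from exterior powers. -/
theorem STP_sym (hXTG : S_XTG) (hDCA : S_DCA) (hJTE : S_JTE) (hTEN : S_TEN) (hVIR : S_VIR)
    (hVAN : S_VAN) (hBAS : S_BAS) (hHSB : S_HSB) (A : Aut) (k : ℕ) (hSE : ∀ j, A.HasSE j)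
    (hD : ∀ j, j < k → A.HasDeg j) : A.HasSym k := by
  rcases hSE k with h | hE
  · exact h
  intro P
  rcases Nat.lt_or_ge k 2 with hk | hk
  · rcases Nat.lt_or_ge k 1 with hk0 | hk1
    · have hk0 : k = 0 := by omega
      subst hk0
      refine ⟨{A.one}, fun p => ?_⟩
      rw [eigs_singleton, (hBAS A).2.2.2.1 p, hHSB.1]
      simp
    · have hk1 : k = 1 := by omega
      subst hk1
      exact ⟨P, fun p => (hHSB.2.2.1 _).symm⟩
  · have hfin := XTR_par_finite k k
    obtain ⟨Q, hQ⟩ := hXTG A k k hk le_rfl hSE hD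
      (fun nu p => JT (fun j => (A.eigs P p).esymm j) nu)
      (fun nu _ => ((hVIR A hSE).2 k nu P).2)
      (fun τ hτ => by
        obtain ⟨T, hT⟩ := STP_tens hTEN hVAN hBAS A (hSE 2) k P τ hτ
        obtain ⟨R, hR⟩ := hE T
        refine ⟨R, fun p => ?_⟩
        obtain ⟨c, hc, hc'⟩ := hT p
        rw [hR p, hc', hDCA k k (A.eigs P p) c, hc])
      (fun _ => 0) (by
        refine ⟨fun i j _ => le_rfl, ?_⟩
        simp)
    refine ⟨Q, fun p => ?_⟩
    rw [hQ p, ← hJTE k (A.eigs P p)]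

theorem s_STP (hXTG : S_XTG) (hDCA : S_DCA) (hCAU : S_CAU) (hJTE : S_JTE) (hROW : S_ROW)
    (hTEN : S_TEN) (hVIR : S_VIR) (hVAN : S_VAN) (hBAS : S_BAS) (hHSB : S_HSB) : S_STP := by
  intro A k hSE hD r lam hlam hsum P
  have hsym := STP_sym hXTG hDCA hJTE hTEN hVIR hVAN hBAS hHSB A k hSE hD
  obtain ⟨m, nu, hnu, hnu1, hnus, hnuS⟩ := hROW r lam hlam
  rw [hsum] at hnus
  rcases Nat.lt_or_ge m 2 with hm | hm
  · rcases Nat.lt_or_ge m 1 with hm0 | hm1
    · have hm0 : m = 0 := by omega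
      subst hm0
      refine ⟨{A.one}, fun p => ?_⟩
      rw [hnuS, eigs_singleton, (hBAS A).2.2.2.1 p]
      simp [schur, JT]
    · have hm1 : m = 1 := by omega
      subst hm1
      obtain ⟨Q, hQ⟩ := hsym P
      refine ⟨Q, fun p => ?_⟩
      rw [hnuS, hQ p]
      have hk : nu 0 = k := by simpa using hnus
      unfold schur JT
      rw [Matrix.det_unique]
      simp [sz, hk]
  · have hmk : m ≤ k := by
      rw [← hnus]
      calc m = ∑ _j : Fin m, 1 := by simp
        _ ≤ ∑ j, nu j := Finset.sum_le_sum fun j _ => hnu1 j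
    obtain ⟨Q, hQ⟩ := hXTG A m k hm hmk hSE hD (fun mu p => schur mu (A.eigs P p))
      (fun mu _ => ((hVIR A hSE).2 m mu P).1)
      (fun τ hτ => by
        obtain ⟨T, hT⟩ := STP_tens hTEN hVAN hBAS A (hSE 2) m P τ hτ
        obtain ⟨R, hR⟩ := hsym T
        refine ⟨R, fun p => ?_⟩
        obtain ⟨c, hc, hc'⟩ := hT p
        rw [hR p, hc', hCAU k m (A.eigs P p) c, hc])
      (fun j => nu j - 1) (by
        refine ⟨fun i j hij => Nat.sub_le_sub_right (hnu hij) 1, ?_⟩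
        have h1 : ∑ j, (nu j - 1) + m = k := by
          rw [← hnus]
          calc ∑ j, (nu j - 1) + m = ∑ j, (nu j - 1) + ∑ _j : Fin m, 1 := by simp
            _ = ∑ j, (nu j - 1 + 1) := by rw [Finset.sum_add_distrib]
            _ = ∑ j, nu j := Finset.sum_congr rfl fun j _ => Nat.sub_add_cancel (hnu1 j)
        change ∑ j, (nu j - 1) = k - m
        omega)
    refine ⟨Q, fun p => ?_⟩
    rw [hQ p, hnuS]
    congr 1
    funext j
    exact Nat.sub_add_cancel (hnu1 j)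

end Pool.H66.S2
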