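import Pool.Agent.H66.S2M.Prod

/-!
# General extraction
-/

namespace Pool.H66.S2

open Filter Topology

open Classical in
/-- Products of elements of the graded ring. -/
theorem XTG_prod (hRMU : S_RMU) (hRTA : S_RTA) (A : Aut) (τ : A.Cusp) (m : ℕ) (h2 : A.HasSE 2)
    (hm : 2 ≤ m) (hdeg : A.deg τ = m) {ι : Type} (s : Finset ι) (f : ι → A.Pt → ℂ)
    (d : ι → ℕ) (h : ∀ i ∈ s, f i ∈ A.RH τ m (d i) (d i)) :
    (fun p => ∏ i ∈ s, f i p) ∈ A.RH τ m ((∑ i ∈ s, d i : ℕ) : ℤ) (∑ i ∈ s, d i) := by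
  obtain ⟨-, -, hmul, -⟩ := hRMU A τ m h2 hm hdeg
  obtain ⟨hone, -⟩ := hRTA A τ m hm hdeg
  induction s using Finset.induction_on with
  | empty =>
    have h1 : (fun p : A.Pt => ∏ i ∈ (∅ : Finset ι), f i p) = A.tr A.one := by
      funext p
      have h3 := (hone).2
      simp only [Finset.prod_empty]
      unfold AData.tr
      have h4 : A.eig A.one p = {1} := by
        unfold AData.eig
        rw [A.deg_one]
        simp [A.loc_one]
      rw [h4]
      simp
    rw [h1]
    refine AddSubgroup.subset_closure ⟨A.one, ?_, rfl⟩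
    simpa using hone
  | insert i s hi ih =>
    have h1 : (fun p => ∏ j ∈ insert i s, f j p) = f i * fun p => ∏ j ∈ s, f j p := by
      funext p
      rw [Finset.prod_insert hi]
      rfl
    rw [h1, Finset.sum_insert hi]
    have h3 := hmul _ _ _ _ (f i) (h i (Finset.mem_insert_self i s)) _
      (ih fun j hj => h j (Finset.mem_insert_of_mem hj))
    push_cast at h3 ⊢
    exact h3

open Classical in
/-- Jacobi-Trudi determinants in the graded ring. -/
theorem XTG_JT (hRMU : S_RMU) (hRTA : S_RTA) (A : Aut) (τ : A.Cusp) (m : ℕ) (h2 : A.HasSE 2)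
    (hm : 2 ≤ m) (hdeg : A.deg τ = m) (a : ℕ → A.Pt → ℂ) (ha : ∀ j : ℕ, a j ∈ A.RH τ m (j : ℤ) j)
    {r : ℕ} (nu : Fin r → ℕ) :
    (fun p => JT (fun j => a j p) nu) ∈ A.RH τ m ((∑ j, nu j : ℕ) : ℤ) (∑ j, nu j) := by
  have h1 : (fun p => JT (fun j => a j p) nu) = ∑ σ : Equiv.Perm (Fin r),
      ((Equiv.Perm.sign σ : ℤ) • fun p => ∏ i, sz (fun j => a j p)
        ((nu (σ i) : ℤ) - ((σ i : Fin r) : ℤ) + (i : ℤ))) := by
    funext p
    simp only [JT, Matrix.det_apply, Matrix.of_apply, Finset.sum_apply, Pi.smul_apply]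
    rfl
  rw [h1]
  refine AddSubgroup.sum_mem _ fun σ _ => AddSubgroup.zsmul_mem _ ?_ _
  by_cases hneg : ∃ i, (nu (σ i) : ℤ) - ((σ i : Fin r) : ℤ) + (i : ℤ) < 0
  · obtain ⟨i, hi⟩ := hneg
    have h3 : (fun p => ∏ i, sz (fun j => a j p)
        ((nu (σ i) : ℤ) - ((σ i : Fin r) : ℤ) + (i : ℤ))) = 0 := by
      funext p
      refine Finset.prod_eq_zero (Finset.mem_univ i) ?_
      unfold sz
      rw [if_neg (not_le.2 hi)]
    rw [h3]
    exact AddSubgroup.zero_mem _
  · push Not at hneg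
    set d : Fin r → ℕ := fun i => ((nu (σ i) : ℤ) - ((σ i : Fin r) : ℤ) + (i : ℤ)).toNat with hd
    have hd' : ∀ i, (d i : ℤ) = (nu (σ i) : ℤ) - ((σ i : Fin r) : ℤ) + (i : ℤ) := fun i =>
      Int.toNat_of_nonneg (hneg i)
    have h3 : (fun p => ∏ i, sz (fun j => a j p)
        ((nu (σ i) : ℤ) - ((σ i : Fin r) : ℤ) + (i : ℤ))) = fun p => ∏ i, a (d i) p := by
      funext p
      refine Finset.prod_congr rfl fun i _ => ?_
      unfold sz
      rw [if_pos (hneg i)]
    have h4 : ∑ i, d i = ∑ j, nu j := by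
      have h5 : ((∑ i, d i : ℕ) : ℤ) = ((∑ j, nu j : ℕ) : ℤ) := by
        push_cast
        simp only [hd']
        rw [Finset.sum_add_distrib, Finset.sum_sub_distrib]
        have h6 : ∑ i, (nu (σ i) : ℤ) = ∑ i, (nu i : ℤ) := Equiv.sum_comp σ fun i => (nu i : ℤ)
        have h7 : ∑ i, ((σ i : Fin r) : ℤ) = ∑ i : Fin r, (i : ℤ) :=
          Equiv.sum_comp σ fun i => ((i : Fin r) : ℤ)
        rw [h6, h7]
        ring
      exact_mod_cast h5
    rw [h3, ← h4]
    exact XTG_prod hRMU hRTA A τ m h2 hm hdeg Finset.univ (fun i => a (d i)) d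
      fun i _ => ha (d i)

open Classical in
theorem s_XTG (hGOO : S_GOO) (hAPT : S_APT) (hPRG : S_PRG) (hRPS : S_RPS) (hRMU : S_RMU)
    (hRTA : S_RTA) (hIND : S_IND) : S_XTG := by
  intro A m k hm hmk hSE hDeg Y hY hR kappa hkappa
  have hfin := XTR_par_finite m k
  -- the virtual representations
  have hv : ∀ nu : Fin m → ℕ, ∃ b : A.Cusp →₀ ℤ, nu ∈ Par m k → ∀ p,
      Y nu p = b.sum fun z n => (n : ℂ) * A.tr z p := by
    intro nu
    by_cases hnu : nu ∈ Par m k
    · have h1 := hY nu hnu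
      unfold AData.VV at h1
      rw [← Set.image_univ, mem_closure_tr] at h1
      obtain ⟨b, -, hb⟩ := h1
      exact ⟨b, fun _ p => congrFun hb p⟩
    · exact ⟨0, fun h => absurd h hnu⟩
  choose b hb using hv
  set F : Finset A.Cusp := hfin.toFinset.biUnion fun nu => (b nu).support with hF
  obtain ⟨E, hE, hEp⟩ := hAPT A (hSE 2) F
  obtain ⟨τ, hgood, hap⟩ := hGOO A hSE m (k + m + 1) E hm hE
  have hdeg : A.deg τ = m := hgood.1
  have htemp := hgood.2.1
  obtain ⟨x, hxI, hxtr, hxb⟩ := hPRG m k (k + m + 1) hm hmk le_rfl A τ hSE hDeg hgood kappa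
    hkappa
  obtain ⟨w, hw, hinj⟩ := hEp τ m (k : ℤ) (k + m) hm hdeg htemp (by
    intro ρ hρ
    obtain ⟨p, hp, hp'⟩ := hap ρ hρ
    refine ⟨p, hp, fun c hc a ha0 has hah => hp' c hc a ha0 has (hah.trans ?_)⟩
    have : 2 * (k + m) ≤ 2 * (k + m + 1) := by omega
    exact_mod_cast this)
  obtain ⟨R, hR⟩ := hR τ hdeg
  -- the virtual representations `V_nu(τ)`
  obtain ⟨-, hτI, -⟩ := hRTA A τ m hm hdeg
  have hV : ∀ nu : Fin m → ℕ, ∃ κ : A.Cusp →₀ ℤ, nu ∈ Par m k →
      (∀ z ∈ κ.support, z ∈ A.Irr τ m (k : ℤ) k) ∧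
      ∀ p, schur nu (A.eig τ p) = κ.sum fun z n => (n : ℂ) * A.tr z p := by
    intro nu
    by_cases hnu : nu ∈ Par m k
    · have h1 := XTG_JT hRMU hRTA A τ m (hSE 2) hm hdeg (fun j p => hs j (A.eig τ p))
        (fun j : ℕ => by
          have h3 := (hRPS A τ m hSE hm hdeg).1 1 1 τ hτI j
          simpa using h3) nu
      rw [hnu.2] at h1
      unfold AData.RH at h1
      rw [mem_closure_tr] at h1
      obtain ⟨κ, hκ, hκ'⟩ := h1
      exact ⟨κ, fun _ => ⟨hκ, fun p => congrFun hκ' p⟩⟩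
    · exact ⟨0, fun h => absurd h hnu⟩
  choose κ hκ using hV
  have hmono := (hRMU A τ m (hSE 2) hm hdeg).2.1
  have hκI : ∀ nu ∈ Par m k, ∀ z ∈ (κ nu).support, z ∈ A.Irr τ m (k : ℤ) (k + m) :=
    fun nu hnu z hz => hmono _ _ _ (Nat.le_add_right k m) ((hκ nu hnu).1 z hz)
  have hκx : ∀ nu ∈ Par m k, κ nu x = if nu = (fun j => kappa j + 1) then 1 else 0 := by
    intro nu hnu
    obtain ⟨h1, h2⟩ := hxb nu hnu (κ nu) (fun z hz => ⟨_, _, (hκ nu hnu).1 z hz⟩)
      (hκ nu hnu).2
    split_ifs with h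
    · exact h1 h
    · exact h2 h
  -- the key identity
  have hkey : ∀ p, (R.map fun z => A.tr z p).sum =
      ∑ nu ∈ hfin.toFinset, ∑ σ ∈ (b nu).support, ∑ z ∈ (κ nu).support,
        ((b nu σ * κ nu z : ℤ) : ℂ) * A.tr (w σ z) p := by
    intro p
    rw [← sum_eigs, hR p, finsum_mem_eq_finite_toFinset_sum _ hfin]
    refine Finset.sum_congr rfl fun nu hl => ?_
    have hl' : nu ∈ Par m k := hfin.mem_toFinset.1 hl
    rw [hb nu hl' p, (hκ nu hl').2 p, Finsupp.sum, Finsupp.sum, Finset.sum_mul_sum]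
    refine Finset.sum_congr rfl fun σ hσ => Finset.sum_congr rfl fun z hz => ?_
    rw [hw σ (Finset.mem_biUnion.2 ⟨nu, hl, hσ⟩) z (hκI nu hl' z hz) p]
    push_cast
    ring
  -- comparison of coefficients
  set θ : A.Cusp →₀ ℤ := (Multiset.toFinsupp R).mapRange (fun n : ℕ => (n : ℤ)) (by simp) -
    ∑ nu ∈ hfin.toFinset, ∑ σ ∈ (b nu).support, ∑ z ∈ (κ nu).support,
      Finsupp.single (w σ z) (b nu σ * κ nu z) with hθ
  have hθ0 : θ = 0 := by
    refine (hIND A).2 θ fun v' n _ => ?_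
    rw [hθ, Finsupp.sum_sub_index (by intro a b c; push_cast; ring), sub_eq_zero,
      Finsupp.sum_mapRange_index (by simp)]
    have h5 : ((Multiset.toFinsupp R).sum fun z n' => ((n' : ℤ) : ℂ) *
        A.tr z ((A.frob v').pow n)) = (R.map fun z => A.tr z ((A.frob v').pow n)).sum := by
      rw [Finsupp.sum, Multiset.toFinsupp_support, Finset.sum_multiset_map_count]
      refine Finset.sum_congr rfl fun e _ => ?_
      rw [Multiset.toFinsupp_apply, nsmul_eq_mul]
      push_cast
      ring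
    rw [h5, hkey]
    rw [← Finsupp.sum_finsetSum_index (by simp) (by intro a b c; push_cast; ring)]
    refine Finset.sum_congr rfl fun nu _ => ?_
    rw [← Finsupp.sum_finsetSum_index (by simp) (by intro a b c; push_cast; ring)]
    refine Finset.sum_congr rfl fun σ _ => ?_
    rw [← Finsupp.sum_finsetSum_index (by simp) (by intro a b c; push_cast; ring)]
    refine Finset.sum_congr rfl fun z _ => ?_
    rw [Finsupp.sum_single_index (by simp)]
  set lam : Fin m → ℕ := fun j => kappa j + 1 with hlam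
  have hmem : lam ∈ Par m k := by
    refine ⟨fun i j hij => Nat.add_le_add_right (hkappa.1 hij) 1, ?_⟩
    have h1 := hkappa.2
    simp only [hlam, Finset.sum_add_distrib, h1, Finset.sum_const, Finset.card_univ,
      Fintype.card_fin, smul_eq_mul, mul_one]
    omega
  have hnn : ∀ σ, 0 ≤ b lam σ := by
    intro σ
    by_cases hσ : σ ∈ (b lam).support
    · have hσF : σ ∈ F := Finset.mem_biUnion.2 ⟨lam, hfin.mem_toFinset.2 hmem, hσ⟩
      have h6 := DFunLike.congr_fun hθ0 (w σ x)
      rw [hθ, Finsupp.sub_apply, Finsupp.zero_apply, sub_eq_zero, Finsupp.mapRange_apply,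
        Multiset.toFinsupp_apply] at h6
      rw [Finsupp.finsetSum_apply] at h6
      have h7 : ∀ nu ∈ hfin.toFinset, (∑ σ' ∈ (b nu).support, ∑ z ∈ (κ nu).support,
          Finsupp.single (w σ' z) (b nu σ' * κ nu z)) (w σ x) =
            if nu = lam then b lam σ else 0 := by
        intro nu hl
        have hl' : nu ∈ Par m k := hfin.mem_toFinset.1 hl
        rw [Finsupp.finsetSum_apply]
        have h8 : ∀ σ' ∈ (b nu).support, (∑ z ∈ (κ nu).support,
            Finsupp.single (w σ' z) (b nu σ' * κ nu z)) (w σ x) =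
              if σ' = σ then b nu σ * κ nu x else 0 := by
          intro σ' hσ'
          rw [Finsupp.finsetSum_apply]
          have h9 : ∀ z ∈ (κ nu).support, (Finsupp.single (w σ' z) (b nu σ' * κ nu z))
              (w σ x) = if z = x then (if σ' = σ then b nu σ * κ nu x else 0) else 0 := by
            intro z hz
            rw [Finsupp.single_apply]
            by_cases hzx : w σ' z = w σ x
            · obtain ⟨h10, h11⟩ := hinj σ' (Finset.mem_biUnion.2 ⟨nu, hl, hσ'⟩) σ hσF z
                (hκI nu hl' z hz) x hxI hzx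
              subst h10 h11
              simp
            · rw [if_neg hzx]
              by_cases h12 : z = x
              · subst h12
                have h13 : σ' ≠ σ := fun h => hzx (by rw [h])
                rw [if_pos rfl, if_neg h13]
              · rw [if_neg h12]
          rw [Finset.sum_congr rfl h9, Finset.sum_ite_eq' (κ nu).support x]
          by_cases hx : x ∈ (κ nu).support
          · rw [if_pos hx]
          · rw [if_neg hx]
            rw [Finsupp.notMem_support_iff] at hx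
            rw [hx]
            simp
        rw [Finset.sum_congr rfl h8, Finset.sum_ite_eq' (b nu).support σ, hκx nu hl']
        by_cases hnl : nu = lam
        · subst hnl
          rw [if_pos hσ, if_pos rfl, if_pos rfl, mul_one]
        · rw [if_neg hnl, if_neg hnl]
          simp
      rw [Finset.sum_congr rfl h7, Finset.sum_ite_eq' hfin.toFinset lam,
        if_pos (hfin.mem_toFinset.2 hmem)] at h6
      rw [← h6]
      positivity
    · rw [Finsupp.notMem_support_iff] at hσ
      rw [hσ]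
  refine ⟨∑ σ ∈ (b lam).support, (b lam σ).toNat • {σ}, fun p => ?_⟩
  rw [hb lam hmem p, sum_eigs, Finsupp.sum]
  rw [← Multiset.coe_mapAddMonoidHom, map_sum, ← Multiset.coe_sumAddMonoidHom, map_sum]
  refine Finset.sum_congr rfl fun σ _ => ?_
  rw [map_nsmul, map_nsmul]
  simp only [Multiset.coe_mapAddMonoidHom, Multiset.map_singleton, Multiset.coe_sumAddMonoidHom,
    Multiset.sum_singleton, nsmul_eq_mul]
  congr 1
  have := Int.toNat_of_nonneg (hnn σ)
  exact_mod_cast congrArg (fun z : ℤ => (z : ℂ)) this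

end Pool.H66.S2
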