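import Pool.Agent.H66.S2.Basic

/-!
LBA: the patterns of the constituents of `V_nu(τ)` add up to the weights of `V_nu`.
-/

namespace Pool.H66.S2

open Filter Topology

/-- Vandermonde for monomials in general position. -/
theorem LBA_van (hVAN : S_VAN) {m : ℕ} (c : Fin m → ℂ) (hc : ∀ j, c j ≠ 0)
    (W : Finset (Fin m → ℤ)) (hW : ∀ a ∈ W, ∀ b ∈ W, mon c a = mon c b → a = b)
    (k : (Fin m → ℤ) → ℂ) (h : ∀ n : ℕ, 1 ≤ n → ∑ a ∈ W, k a * mon c a ^ n = 0) :
    ∀ a ∈ W, k a = 0 := by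
  classical
  intro a ha
  set φ : ℂ →₀ ℂ := ∑ b ∈ W, Finsupp.single (mon c b) (k b) with hφ
  have h0 : φ = 0 := by
    apply hVAN
    · intro e he
      rw [hφ] at he
      have h1 := Finsupp.support_finsetSum he
      rw [Finset.mem_biUnion] at h1
      obtain ⟨b, _, hb⟩ := h1
      have h2 := Finsupp.support_single_subset hb
      rw [Finset.mem_singleton] at h2
      rw [h2]
      exact mon_ne c hc b
    · intro n hn
      rw [← h n hn, hφ, ← Finsupp.sum_finsetSum_index (by simp) (by intro x y z; ring)]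
      refine Finset.sum_congr rfl fun b _ => ?_
      rw [Finsupp.sum_single_index (by simp)]
  have h1 : φ (mon c a) = k a := by
    rw [hφ, Finsupp.finsetSum_apply, Finset.sum_eq_single a]
    · rw [Finsupp.single_eq_same]
    · intro b hb hba
      rw [Finsupp.single_eq_of_ne]
      intro h2
      exact hba (hW b hb a ha h2.symm)
    · intro h2
      exact absurd ha h2
  rw [← h1, h0]
  rfl

theorem s_LBA (hBAS : S_BAS) (hVAN : S_VAN) (hVIC : S_VIC) : S_LBA := by
  classical
  intro A τ m H v t c hm hτ hG nu hnu hH K hK1 hK2 Q hQ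
  obtain ⟨_, hord, hc, hgen, hP⟩ := hG
  obtain ⟨_, _, b3, _⟩ := hBAS A
  set d : ℤ := ((∑ j, nu j : ℕ) : ℤ) with hd
  have hm1 : 1 ≤ m := by omega
  have hirr : ∀ z ∈ Q, z ∈ A.Irr τ m d H := by
    intro z hz
    obtain ⟨h1, h2⟩ := hVIC A τ m hm hτ nu hnu Q hQ z hz
    refine ⟨h1.trans (Nat.pow_le_pow_right hm1 hH), fun p c' hc' e he => ?_⟩
    obtain ⟨a, ha, hea⟩ := h2 p c' hc' e he
    exact ⟨a, Wt_mono hH ha, hea⟩
  have hex : ∀ z : A.Cusp, ∃ B : Multiset (Fin m → ℤ), z ∈ Q →
      (A.Pat z d H ⟨v, t, 1⟩ c B ∧ (∀ σ : Equiv.Perm (Fin m), (B.map fun a => a ∘ σ) = B) ∧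
        ∀ (b : Fin m → ℤ) (i j : Fin m), i ≠ j → 1 ≤ b i - b j →
          B.count b ≤ B.count (b - ee i + ee j)) := by
    intro z
    by_cases hz : z ∈ Q
    · obtain ⟨B, hB⟩ := hP d z (hirr z hz)
      exact ⟨B, fun _ => hB⟩
    · exact ⟨0, fun h => absurd h hz⟩
  choose B hB using hex
  refine ⟨B, fun z hz => ?_, ?_⟩
  · obtain ⟨h1, h2, h3⟩ := hB z hz
    refine ⟨h1, h2, ?_⟩
    intro b i j hij hb
    convert h3 b i j hij hb
  set W : Finset (Fin m → ℤ) := (Wt_finite m d H).toFinset with hWdef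
  have hWmem : ∀ a, a ∈ W ↔ a ∈ Wt m d H := fun a => by rw [hWdef, Set.Finite.mem_toFinset]
  have hKW : ∀ a ∈ K.support, a ∈ W := by
    intro a ha
    rw [hWmem]
    obtain ⟨h1, h2⟩ := hK2 a ha
    refine ⟨?_, ?_⟩
    · rw [h2, hd]
      push_cast
      rfl
    · have h3 : ∑ j, |a j| = ∑ j, a j := Finset.sum_congr rfl fun j _ => abs_of_nonneg (h1 j)
      rw [h3, h2]
      have h4 : ((∑ j, nu j + m : ℕ) : ℤ) ≤ (H : ℤ) := by exact_mod_cast hH
      push_cast at h4
      have : (0 : ℤ) ≤ m := Int.natCast_nonneg m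
      linarith
  have hBW : ∀ z ∈ Q, ∀ a ∈ B z, a ∈ W := by
    intro z hz a ha
    rw [hWmem]
    exact (hB z hz).1.1 a ha
  -- the traces at the powers of the point
  have hz : ∀ z ∈ Q, ∀ n : ℕ, A.tr z (AData.Pt.pow ⟨v, t, 1⟩ n)
      = ∑ a ∈ W, ((B z).count a : ℂ) * mon c a ^ n := by
    intro z hz n
    unfold AData.tr
    rw [b3, (hB z hz).1.2, Multiset.map_map]
    have h1 : (Multiset.map ((fun a : ℂ => a ^ (n : ℤ)) ∘ mon c) (B z)).sum
        = ∑ a ∈ (B z).toFinset, ((B z).count a : ℂ) * mon c a ^ n := by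
      rw [Finset.sum_multiset_map_count]
      refine Finset.sum_congr rfl fun a _ => ?_
      rw [nsmul_eq_mul, Function.comp, zpow_natCast]
    rw [h1]
    apply Finset.sum_subset
    · intro a ha
      exact hBW z hz a (Multiset.mem_toFinset.1 ha)
    · intro a _ ha
      rw [Multiset.mem_toFinset] at ha
      rw [Multiset.count_eq_zero_of_notMem ha]
      simp
  have hsum : ∀ R : Multiset A.Cusp, (∀ z ∈ R, z ∈ Q) → ∀ n : ℕ,
      (A.eigs R (AData.Pt.pow ⟨v, t, 1⟩ n)).sum
        = ∑ a ∈ W, (((R.map fun z => ((B z).count a : ℤ)).sum : ℤ) : ℂ) * mon c a ^ n := by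
    intro R
    induction R using Multiset.induction_on with
    | empty => intro _ n; rw [eigs_zero]; simp
    | cons z R ih =>
      intro hR n
      rw [eigs_cons, Multiset.sum_add, ih (fun w hw => hR w (Multiset.mem_cons_of_mem hw)) n]
      have h1 := hz z (hR z (Multiset.mem_cons_self _ _)) n
      unfold AData.tr at h1
      rw [h1, ← Finset.sum_add_distrib]
      refine Finset.sum_congr rfl fun a _ => ?_
      rw [Multiset.map_cons, Multiset.sum_cons]
      push_cast
      ring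
  have hKsum : ∀ n : ℕ, (A.eigs Q (AData.Pt.pow ⟨v, t, 1⟩ n)).sum
      = ∑ a ∈ W, (K a : ℂ) * mon c a ^ n := by
    intro n
    rw [hQ, b3, hord, Multiset.map_map]
    have h1 : (Multiset.map ((fun a : ℂ => a ^ (n : ℤ)) ∘ c) Finset.univ.val)
        = Finset.univ.val.map fun j => c j ^ n := by
      apply Multiset.map_congr rfl
      intro j _
      rw [Function.comp, zpow_natCast]
    rw [h1, hK1, ev_pow, Finsupp.sum]
    apply Finset.sum_subset hKW
    intro a _ ha
    rw [Finsupp.notMem_support_iff.1 ha]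
    simp
  have hzero := LBA_van hVAN c hc W (fun a ha b hb h =>
    mon_inj hc hgen ((hWmem a).1 ha) ((hWmem b).1 hb) h)
    (fun a => (((Q.map fun z => ((B z).count a : ℤ)).sum : ℤ) : ℂ) - (K a : ℂ)) (by
      intro n _
      have h1 := hsum Q (fun z hz => hz) n
      rw [hKsum n] at h1
      simp only [sub_mul, Finset.sum_sub_distrib]
      rw [← h1, sub_self])
  intro a
  by_cases ha : a ∈ W
  · have h1 := hzero a ha
    rw [sub_eq_zero] at h1
    have h2 : (Q.map fun z => ((B z).count a : ℤ)).sum = K a := by exact_mod_cast h1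
    convert h2
  · have h1 : K a = 0 := by
      rw [← Finsupp.notMem_support_iff]
      exact fun h => ha (hKW a h)
    rw [h1]
    apply Multiset.sum_eq_zero
    intro x hx
    rw [Multiset.mem_map] at hx
    obtain ⟨z, hz, rfl⟩ := hx
    rw [Multiset.count_eq_zero_of_notMem fun h => ha (hBW z hz a h)]
    rfl

end Pool.H66.S2
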