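import Pool.Agent.H66.S2.Basic

/-!
# Products of multisets of eigenvalues
-/

namespace Pool.H66.S2

open Filter Topology

theorem XTR_par_finite (m k : ℕ) : (Par m k).Finite := by
  refine Set.Finite.subset (Set.finite_Icc (fun _ => 0) (fun _ => k)) ?_
  intro lam h
  refine ⟨fun j => Nat.zero_le _, fun j => ?_⟩
  rw [← h.2]
  exact Finset.single_le_sum (f := lam) (fun _ _ => Nat.zero_le _) (Finset.mem_univ j)

/-- Multisets of nonzero complex numbers are determined by their power sums. -/
theorem XTR_psum (hVAN : S_VAN) (X Y : Multiset ℂ) (hX : (0 : ℂ) ∉ X) (hY : (0 : ℂ) ∉ Y)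
    (h : ∀ n : ℕ, 1 ≤ n → (X.map fun a => a ^ n).sum = (Y.map fun a => a ^ n).sum) : X = Y := by
  classical
  have hsum : ∀ (Z : Multiset ℂ) (n : ℕ), (Z.map fun a => a ^ n).sum =
      (Multiset.toFinsupp Z).sum fun e k => (k : ℂ) * e ^ n := by
    intro Z n
    rw [Finsupp.sum, Multiset.toFinsupp_support, Finset.sum_multiset_map_count]
    refine Finset.sum_congr rfl fun e _ => ?_
    rw [Multiset.toFinsupp_apply, nsmul_eq_mul]
  set φ : ℂ →₀ ℂ := (Multiset.toFinsupp X).mapRange (fun n : ℕ => (n : ℂ)) (by simp) -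
    (Multiset.toFinsupp Y).mapRange (fun n : ℕ => (n : ℂ)) (by simp) with hφ
  have h0 : φ = 0 := by
    refine hVAN φ ?_ ?_
    · intro e he h0
      subst h0
      rw [Finsupp.mem_support_iff] at he
      apply he
      simp [hφ, Multiset.count_eq_zero_of_notMem hX, Multiset.count_eq_zero_of_notMem hY]
    · intro n hn
      rw [hφ, Finsupp.sum_sub_index (by intro a b c; ring)]
      rw [Finsupp.sum_mapRange_index (by simp), Finsupp.sum_mapRange_index (by simp)]
      rw [← hsum, ← hsum, h n hn, sub_self]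
  ext e
  have h1 := DFunLike.congr_fun h0 e
  simp only [hφ, Finsupp.coe_sub, Pi.sub_apply, Finsupp.mapRange_apply,
    Multiset.toFinsupp_apply, Finsupp.coe_zero, Pi.zero_apply, sub_eq_zero] at h1
  exact_mod_cast h1

/-- The eigenvalues of a tensor product. -/
theorem XTR_prod (hVAN : S_VAN) (hBAS : S_BAS) (A : Aut) {m : ℕ} (P T : Multiset A.Cusp)
    (τ : A.Cusp) (hT : ∀ p, (A.eigs T p).sum = (A.eigs P p).sum * A.tr τ p) (p : A.Pt)
    (c : Fin m → ℂ) (hc : A.Ord τ p c) :
    A.eigs T p = (A.eigs P p).bind fun a => Finset.univ.val.map fun j => a * c j := by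
  obtain ⟨-, hne, hpow, -⟩ := hBAS A
  have hne' : ∀ (R : Multiset A.Cusp) (q : A.Pt), (0 : ℂ) ∉ A.eigs R q := by
    intro R q h
    obtain ⟨σ, _, h⟩ := (mem_eigs A.toAData).1 h
    exact hne σ q h
  have hcne : ∀ j, c j ≠ 0 := by
    intro j h
    apply hne τ p
    rw [hc, Multiset.mem_map]
    exact ⟨j, Finset.mem_univ_val j, h⟩
  have hpow' : ∀ (R : Multiset A.Cusp) (q : A.Pt) (n : ℕ),
      ((A.eigs R q).map fun a => a ^ n).sum = (A.eigs R (q.pow n)).sum := by
    intro R q n
    induction R using Multiset.induction_on with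
    | empty => simp [AData.eigs]
    | cons σ R ih =>
      rw [eigs_cons, eigs_cons, Multiset.map_add, Multiset.sum_add, Multiset.sum_add, ih, hpow]
      simp
  refine XTR_psum hVAN _ _ (hne' T p) ?_ ?_
  · intro h
    rw [Multiset.mem_bind] at h
    obtain ⟨a, ha, h⟩ := h
    rw [Multiset.mem_map] at h
    obtain ⟨j, _, h⟩ := h
    rcases mul_eq_zero.1 h with h | h
    · exact hne' P p (h ▸ ha)
    · exact hcne j h
  · intro n _
    rw [hpow', hT, ← hpow' P p n]
    have h1 : A.tr τ (p.pow n) = ∑ j, c j ^ n := by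
      unfold AData.tr
      rw [hpow, hc, Multiset.map_map]
      simp only [Function.comp_apply, zpow_natCast]
      rfl
    rw [h1, Multiset.map_bind, Multiset.sum_bind, ← Multiset.sum_map_mul_right]
    congr 1
    refine Multiset.map_congr rfl fun a _ => ?_
    rw [Multiset.map_map]
    simp only [Function.comp_apply, mul_pow, Finset.mul_sum]
    rfl

end Pool.H66.S2
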